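import Pool.Agent.Helper84K9.TT.Stm
import Pool.Agent.Helper84K9.SG.Asm

/-! Three term geometric progressions: assembly. -/

set_option autoImplicit false

namespace Pool.Agent.Helper84K9.TT

open Finset

lemma tele (n : ℕ) : ∑ x ∈ range n, 1 / (((x : ℝ) + 1) * ((x : ℝ) + 2)) = 1 - 1 / ((n : ℝ) + 1) := by
  induction n with
  | zero => simp
  | succ n ih =>
    rw [Finset.sum_range_succ, ih]
    have h1 : (n : ℝ) + 1 ≠ 0 := by positivity
    have h2 : (n : ℝ) + 2 ≠ 0 := by positivity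
    push_cast
    have h3 : (n : ℝ) + 1 + 1 ≠ 0 := by positivity
    field_simp
    ring

lemma exp_le (x : ℕ) : Real.exp (-(3 * ((Nat.log 2 x + 2 : ℕ) : ℝ))) ≤
    1 / (((x : ℝ) + 1) * ((x : ℝ) + 2)) := by
  have h1 : x < 2 ^ (Nat.log 2 x + 1) := Nat.lt_pow_succ_log_self (by norm_num) x
  obtain ⟨k, hk⟩ : ∃ k, k = Nat.log 2 x + 1 := ⟨_, rfl⟩
  rw [← hk] at h1
  have hk2 : Nat.log 2 x + 2 = k + 1 := by omega
  rw [hk2]
  have h2 : (x + 1) * (x + 2) ≤ 2 ^ (2 * (k + 1)) := by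
    have h3 : x + 1 ≤ 2 ^ (k + 1) := by
      have : 2 ^ k ≤ 2 ^ (k + 1) := Nat.pow_le_pow_right (by norm_num) (by omega)
      omega
    have h4 : x + 2 ≤ 2 ^ (k + 1) := by
      have : 2 ^ (k + 1) = 2 * 2 ^ k := by rw [pow_succ]; ring
      have : 1 ≤ 2 ^ k := Nat.one_le_pow _ _ (by norm_num)
      omega
    calc (x + 1) * (x + 2) ≤ 2 ^ (k + 1) * 2 ^ (k + 1) := Nat.mul_le_mul h3 h4
      _ = 2 ^ (2 * (k + 1)) := by rw [← pow_add]; congr 1; ring
  have h5 : (((x + 1) * (x + 2) : ℕ) : ℝ) ≤ (2 : ℝ) ^ (2 * (k + 1)) := by exact_mod_cast h2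
  have h6 : (2 : ℝ) ^ (2 * (k + 1)) ≤ Real.exp (3 * ((k + 1 : ℕ) : ℝ)) := by
    have h7 : (2 : ℝ) ≤ Real.exp 1 := by
      have := Real.exp_one_gt_d9
      linarith
    calc (2 : ℝ) ^ (2 * (k + 1)) ≤ (2 : ℝ) ^ (3 * (k + 1)) :=
          pow_le_pow_right₀ (by norm_num) (by omega)
      _ ≤ (Real.exp 1) ^ (3 * (k + 1)) := pow_le_pow_left₀ (by norm_num) h7 _
      _ = Real.exp (3 * ((k + 1 : ℕ) : ℝ)) := by
          rw [← Real.exp_nat_mul]
          congr 1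
          push_cast
          ring
  rw [Real.exp_neg, ← one_div]
  apply one_div_le_one_div_of_le (by positivity)
  push_cast at h5
  exact h5.trans h6

theorem three_poly (hcor : S_COR) (hnh : S_NH) (huf : S_UF) (hpar : S_PAR) (hfin : S_FIN) :
    ∃ A : Set ℕ, (∀ a ∈ A, 0 < a) ∧
      (∀ c : ℕ → ℕ, (∀ j < 3, c j ∈ A) → c 0 * c 2 = c 1 ^ 2 → ¬ c 0 < c 1) ∧
      ∃ C : ℝ, ∀ x : ℝ, 2 ≤ x → ∃ a ∈ A, x ≤ (a : ℝ) ∧ (a : ℝ) ≤ x + C * (Real.log x) ^ 5 := by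
  classical
  obtain ⟨x0, hx0⟩ := hpar
  let G : ℕ → ℕ := fun x => 4800 * (Nat.log 2 x + 2) ^ 5
  have hG : ∀ x, 4800 ≤ G x := by
    intro x
    have : 1 ≤ (Nat.log 2 x + 2) ^ 5 := Nat.one_le_pow _ _ (by omega)
    simp only [G]
    omega
  have hex : ∀ l : ℕ, ∃ A : Set ℕ, (∀ a ∈ A, 0 < a) ∧
      (∀ c : ℕ → ℕ, (∀ j < 3, c j ∈ A) → c 0 * c 2 = c 1 ^ 2 → ¬ c 0 < c 1) ∧
      (∀ x, x0 ≤ x → x + G x ≤ 2 ^ l → ∃ a ∈ A, x ≤ a ∧ a < x + G x) := by
    intro l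
    rcases Nat.eq_zero_or_pos l with hl | hl
    · subst hl
      refine ⟨∅, by simp, fun c hc => absurd (hc 0 (by norm_num)) (by simp), fun x _ hx => ?_⟩
      have := hG x
      omega
    obtain ⟨R, hR, hRp⟩ := Nat.exists_infinite_primes (10000 * l ^ 6)
    haveI : NeZero R := ⟨hRp.ne_zero⟩
    let I : Finset ℕ := (range (2 ^ l)).filter (fun x => x0 ≤ x ∧ x + G x ≤ 2 ^ l)
    let B : ℕ → Set (Fin (2 ^ l) → Fin R) := fun x =>
      {ω | ∀ n : ℕ, x ≤ n → n < x + G x → ¬ Good l (Nat.log 2 n + 1) (f ω n)}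
    have h1 : (({ω | ∃ x ∈ I, ω ∈ B x} : Set (Fin (2 ^ l) → Fin R)).ncard : ℝ) ≤
        ∑ x ∈ I, ((B x).ncard : ℝ) := by
      exact_mod_cast SG.ncard_biUnion_le I B
    have hcard : (0 : ℝ) < (Fintype.card (Fin (2 ^ l) → Fin R) : ℝ) := by
      exact_mod_cast Fintype.card_pos
    have h2 : ∀ x ∈ I, ((B x).ncard : ℝ) ≤
        1 / (((x : ℝ) + 1) * ((x : ℝ) + 2)) * Fintype.card (Fin (2 ^ l) → Fin R) := by
      intro x hx
      obtain ⟨-, hx1, hx2⟩ := mem_filter.1 hx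
      have h3 := hnh l R (G x) x hRp hl hR (by have := hG x; omega) (hx0 x hx1) hx2
      refine h3.trans (mul_le_mul_of_nonneg_right ?_ hcard.le)
      refine le_trans (le_of_eq ?_) (exp_le x)
      congr 1
      have h4 : (0 : ℝ) < ((Nat.log 2 x + 2 : ℕ) : ℝ) := by positivity
      simp only [G]
      rw [Nat.cast_mul, Nat.cast_pow]
      field_simp
      norm_num
    have h3 : ∑ x ∈ I, ((B x).ncard : ℝ) < Fintype.card (Fin (2 ^ l) → Fin R) := by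
      calc ∑ x ∈ I, ((B x).ncard : ℝ) ≤
            ∑ x ∈ I, 1 / (((x : ℝ) + 1) * ((x : ℝ) + 2)) * Fintype.card (Fin (2 ^ l) → Fin R) :=
            Finset.sum_le_sum h2
        _ = (∑ x ∈ I, 1 / (((x : ℝ) + 1) * ((x : ℝ) + 2))) * Fintype.card (Fin (2 ^ l) → Fin R) := by
            rw [Finset.sum_mul]
        _ ≤ (∑ x ∈ range (2 ^ l), 1 / (((x : ℝ) + 1) * ((x : ℝ) + 2))) *
              Fintype.card (Fin (2 ^ l) → Fin R) := by
            apply mul_le_mul_of_nonneg_right _ hcard.le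
            apply Finset.sum_le_sum_of_subset_of_nonneg (Finset.filter_subset _ _)
            intro i _ _
            positivity
        _ < 1 * Fintype.card (Fin (2 ^ l) → Fin R) := by
            apply mul_lt_mul_of_pos_right _ hcard
            rw [tele]
            have : (0 : ℝ) < 1 / (((2 ^ l : ℕ) : ℝ) + 1) := by positivity
            linarith
        _ = _ := one_mul _
    have h4 : ∃ ω : Fin (2 ^ l) → Fin R, ¬ ∃ x ∈ I, ω ∈ B x := by
      by_contra hcon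
      push Not at hcon
      have h5 : ({ω | ∃ x ∈ I, ω ∈ B x} : Set (Fin (2 ^ l) → Fin R)) = Set.univ := by
        ext ω
        simpa using hcon ω
      rw [h5, Set.ncard_univ, Nat.card_eq_fintype_card] at h1
      linarith
    obtain ⟨ω, hω⟩ := h4
    refine ⟨{n | 0 < n ∧ n < 2 ^ l ∧ Good l (Nat.log 2 n + 1) (f ω n)}, fun a ha => ha.1,
      fun c hc h => hcor l R ω c (fun j hj => hc j hj) h, fun x hx1 hx2 => ?_⟩
    have hxI : x ∈ I := by
      rw [mem_filter, mem_range]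
      have := hG x
      exact ⟨by omega, hx1, hx2⟩
    have h6 : ω ∉ B x := fun h => hω ⟨x, hxI, h⟩
    simp only [B] at h6
    rw [Set.mem_setOf_eq] at h6
    push Not at h6
    obtain ⟨n, hn1, hn2, hn3⟩ := h6
    have hxpos : 0 < x := by
      have h7 : (2 * G x) ^ 8 ≤ x := hx0 x hx1
      have h8 : 0 < (2 * G x) ^ 8 := Nat.pow_pos (by have := hG x; omega)
      omega
    exact ⟨n, ⟨by omega, by omega, hn3⟩, hn1, hn2⟩
  choose A hA0 hA1 hA2 using hex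
  obtain ⟨S, hS0, hS1, hS2⟩ := huf A G x0 hA0 hA1 hA2
  exact ⟨S, hS0, hS1, hfin S x0 hS2⟩

end Pool.Agent.Helper84K9.TT
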