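import Pool.Agent.Helper84K9.TT.Stm
import Pool.Agent.Helper84K9.GP.Scale

/-!
# Three terms of a geometric progression are not all good

For `c 0 * c 2 = c 1 ^ 2` the second difference of `f` is `√2` times the sum of the squares of the
differences of the exponents.
-/

set_option autoImplicit false

namespace Pool.Agent.Helper84K9.TT

open Finset

/-- the number of prime factors with multiplicity is at most `log₂ n` -/
lemma cor_sum_le (l n : ℕ) (hn : n ≠ 0) (hN : n < 2 ^ l) :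
    ∑ p : Fin (2 ^ l), n.factorization p.val ≤ Nat.log 2 n := by
  rw [Fin.sum_univ_eq_sum_range (fun p => n.factorization p) (2 ^ l)]
  apply Nat.le_log_of_pow_le (by norm_num)
  conv_rhs => rw [← Helper84K9.GP.prod_fact (2 ^ l) n hn hN]
  rw [← Finset.prod_pow_eq_pow_sum]
  apply Finset.prod_le_prod'
  intro p _
  by_cases hp : p.Prime
  · exact Nat.pow_le_pow_left hp.two_le _
  · rw [Nat.factorization_eq_zero_of_not_prime _ hp, pow_zero, pow_zero]

/-- the sum of the squares of the exponents is at most `(log₂ n) ^ 2` -/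
lemma cor_sum_sq_le (l n : ℕ) (hn : n ≠ 0) (hN : n < 2 ^ l) :
    ∑ p : Fin (2 ^ l), (n.factorization p.val) ^ 2 ≤ (Nat.log 2 n) ^ 2 := by
  calc ∑ p : Fin (2 ^ l), (n.factorization p.val) ^ 2
      ≤ ∑ p : Fin (2 ^ l), (n.factorization p.val * ∑ q : Fin (2 ^ l), n.factorization q.val) := by
        apply Finset.sum_le_sum
        intro p _
        rw [sq]
        apply Nat.mul_le_mul_left
        exact Finset.single_le_sum (f := fun q : Fin (2 ^ l) => n.factorization q.val)
          (fun _ _ => Nat.zero_le _) (mem_univ p)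
    _ = (∑ p : Fin (2 ^ l), n.factorization p.val) *
          ∑ q : Fin (2 ^ l), n.factorization q.val := by
        rw [← Finset.sum_mul]
    _ ≤ (Nat.log 2 n) ^ 2 := by
        rw [sq]
        exact Nat.mul_le_mul (cor_sum_le l n hn hN) (cor_sum_le l n hn hN)

theorem cor : S_COR := by
  intro l R ω c hc hgp hlt
  obtain ⟨p0, l0, g0⟩ := hc 0 (by norm_num)
  obtain ⟨p1, l1, g1⟩ := hc 1 (by norm_num)
  obtain ⟨p2, l2, g2⟩ := hc 2 (by norm_num)
  have h12 : c 1 ≤ c 2 := by
    by_contra h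
    have h' : c 2 < c 1 := by omega
    have h3 : c 0 * c 2 < c 1 * c 1 := Nat.mul_lt_mul'' hlt h'
    rw [hgp, sq] at h3
    exact lt_irrefl _ h3
  have hv : ∀ p : ℕ, (c 0).factorization p + (c 2).factorization p =
      2 * (c 1).factorization p := by
    intro p
    have e : (c 0 * c 2).factorization p = (c 1 ^ 2).factorization p := by rw [hgp]
    rw [Nat.factorization_mul p0.ne' p2.ne', Nat.factorization_pow] at e
    simpa only [Finsupp.coe_add, Pi.add_apply, Finsupp.coe_smul, Pi.smul_apply, smul_eq_mul] using e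
  let d : Fin (2 ^ l) → ℤ := fun p => ((c 1).factorization p.val : ℤ) - (c 0).factorization p.val
  obtain ⟨D, hD⟩ : ∃ D : ℕ, D = ∑ p, (d p).natAbs ^ 2 := ⟨_, rfl⟩
  have hD1 : 1 ≤ D := by
    by_contra h
    have h0 : ∑ p, (d p).natAbs ^ 2 = 0 := by omega
    have hz := (Finset.sum_eq_zero_iff).1 h0
    apply hlt.ne
    apply Nat.eq_of_factorization_eq p0.ne' p1.ne'
    intro p
    by_cases hp : p < 2 ^ l
    · have h3 := hz ⟨p, hp⟩ (mem_univ _)
      have h4 : (d ⟨p, hp⟩).natAbs = 0 := pow_eq_zero_iff (by norm_num) |>.1 h3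
      simp only [d] at h4
      omega
    · rw [Nat.factorization_eq_zero_of_lt (by omega), Nat.factorization_eq_zero_of_lt (by omega)]
  have hDlog : D ≤ (Nat.log 2 (c 1)) ^ 2 := by
    rw [hD]
    refine le_trans ?_ (cor_sum_sq_le l (c 1) p1.ne' l1)
    apply Finset.sum_le_sum
    intro p _
    apply Nat.pow_le_pow_left
    have h3 := hv p.val
    simp only [d]
    omega
  have hDl : D ≤ l ^ 2 := by
    refine le_trans hDlog (Nat.pow_le_pow_left ?_ 2)
    exact (Nat.log_lt_of_lt_pow p1.ne' l1).le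
  have hDr : (D : ℝ) = ∑ p, (d p : ℝ) ^ 2 := by
    rw [hD, Nat.cast_sum]
    apply Finset.sum_congr rfl
    intro p _
    rw [Nat.cast_pow, Nat.cast_natAbs, Int.cast_abs, sq_abs]
  have key : f ω (c 0) + f ω (c 2) - 2 * f ω (c 1) = Real.sqrt 2 * D := by
    rw [hDr]
    unfold f
    rw [Finset.mul_sum, Finset.mul_sum, ← Finset.sum_add_distrib, ← Finset.sum_sub_distrib]
    apply Finset.sum_congr rfl
    intro p _
    have h2 : ((c 2).factorization p.val : ℝ) =
        2 * (c 1).factorization p.val - (c 0).factorization p.val := by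
      have h3 : ((c 0).factorization p.val : ℝ) + (c 2).factorization p.val =
          2 * (c 1).factorization p.val := by exact_mod_cast hv p.val
      linarith
    rw [h2]
    simp only [d]
    push_cast
    ring
  obtain ⟨z1, hz1⟩ := g1.1
  obtain ⟨z2, hz2⟩ := g2.1
  have hfin := g0.2 D hD1 hDl (2 * z1 - z2)
  have hlog : Nat.log 2 (c 1) ≤ Nat.log 2 (c 2) := Nat.log_mono_right h12
  have hm12 : (1 : ℝ) / (400 * ((Nat.log 2 (c 2) + 1 : ℕ) : ℝ) ^ 4) ≤
      1 / (400 * ((Nat.log 2 (c 1) + 1 : ℕ) : ℝ) ^ 4) := by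
    apply one_div_le_one_div_of_le (by positivity)
    have h3 : ((Nat.log 2 (c 1) + 1 : ℕ) : ℝ) ≤ ((Nat.log 2 (c 2) + 1 : ℕ) : ℝ) := by
      exact_mod_cast Nat.succ_le_succ hlog
    gcongr
  have hD0 : (0 : ℝ) < D := by exact_mod_cast hD1
  have hDm : 3 * ((1 : ℝ) / (400 * ((Nat.log 2 (c 1) + 1 : ℕ) : ℝ) ^ 4)) ≤
      3 / (400 * (D : ℝ) ^ 2) := by
    have h3 : (D : ℝ) ≤ ((Nat.log 2 (c 1) + 1 : ℕ) : ℝ) ^ 2 := by
      have h4 : D ≤ (Nat.log 2 (c 1) + 1) ^ 2 :=
        le_trans hDlog (Nat.pow_le_pow_left (Nat.le_succ _) 2)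
      exact_mod_cast h4
    have h5 : 400 * (D : ℝ) ^ 2 ≤ 400 * ((Nat.log 2 (c 1) + 1 : ℕ) : ℝ) ^ 4 := by
      have h6 : (D : ℝ) ^ 2 ≤ ((Nat.log 2 (c 1) + 1 : ℕ) : ℝ) ^ 4 :=
        le_trans (pow_le_pow_left₀ hD0.le h3 2) (le_of_eq (by ring))
      linarith
    rw [mul_one_div]
    exact div_le_div_of_nonneg_left (by norm_num) (by positivity) h5
  have heq : f ω (c 0) - Real.sqrt 2 * D - ((2 * z1 - z2 : ℤ) : ℝ) =
      2 * (f ω (c 1) - z1) - (f ω (c 2) - z2) := by
    push_cast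
    linarith
  rw [heq] at hfin
  rw [abs_lt] at hz1 hz2
  have hlt3 : |2 * (f ω (c 1) - z1) - (f ω (c 2) - z2)| <
      3 * ((1 : ℝ) / (400 * ((Nat.log 2 (c 1) + 1 : ℕ) : ℝ) ^ 4)) := by
    rw [abs_lt]
    constructor <;> linarith [hz1.1, hz1.2, hz2.1, hz2.2]
  linarith

end Pool.Agent.Helper84K9.TT
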