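import Pool.Agent.Helper84K9.TT.Stm
import Pool.Agent.Helper84K9.SH.Fin

/-!
# Leaf FIN: the natural numbers give the real intervals (helper78)
-/

set_option autoImplicit false

namespace Pool.Agent.Helper84K9.TT

theorem fin : S_FIN := by
  intro A N0 h
  refine Pool.Agent.Helper84K9.SH.fin4 A (4800 * 5 ^ 5) (max N0 4) (by norm_num) ?_
  intro n hn
  have hn0 : N0 ≤ n := le_trans (le_max_left _ _) hn
  have hn4 : 4 ≤ n := le_trans (le_max_right _ _) hn
  obtain ⟨a, ha, h1, h2⟩ := h n hn0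
  refine ⟨a, ha, h1, ?_⟩
  have hl2 : (0.6931471803 : ℝ) < Real.log 2 := Real.log_two_gt_d9
  have hn0' : (0 : ℝ) < n := by exact_mod_cast (by omega : 0 < n)
  have hL : ((Nat.log 2 n : ℕ) : ℝ) * Real.log 2 ≤ Real.log n := by
    have h3 : (2 : ℝ) ^ (Nat.log 2 n) ≤ n := by
      exact_mod_cast Nat.pow_log_le_self 2 (by omega : n ≠ 0)
    have h4 := Real.log_le_log (by positivity) h3
    rwa [Real.log_pow] at h4
  have hlog2 : (2 : ℝ) ≤ (Nat.log 2 n : ℕ) := by
    have h5 : 2 ≤ Nat.log 2 n := by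
      apply Nat.le_log_of_pow_le (by norm_num)
      omega
    exact_mod_cast h5
  have hkey : ((Nat.log 2 n : ℕ) : ℝ) + 2 ≤ 5 * Real.log n := by
    nlinarith
  have hpow : (((Nat.log 2 n : ℕ) : ℝ) + 2) ^ 5 ≤ 5 ^ 5 * Real.log n ^ 5 := by
    rw [← mul_pow]
    exact pow_le_pow_left₀ (by positivity) hkey 5
  have h6 : (a : ℝ) < (n : ℝ) + 4800 * (((Nat.log 2 n : ℕ) : ℝ) + 2) ^ 5 := by
    exact_mod_cast h2
  nlinarith [hpow, h6]

end Pool.Agent.Helper84K9.TT
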