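import Pool.Agent.Helper84K9.TT.Stm

/-!
# Leaf IRR: the distance of the multiples of `√2` from the integers
-/

set_option autoImplicit false

namespace Pool.Agent.Helper84K9.TT

theorem irr : S_IRR := by
  intro D z hD
  have hD1 : (1 : ℝ) ≤ (D : ℝ) := by exact_mod_cast hD
  have hs : Real.sqrt 2 * Real.sqrt 2 = 2 := Real.mul_self_sqrt (by norm_num)
  have hs0 : 0 ≤ Real.sqrt 2 := Real.sqrt_nonneg 2
  have hs2 : Real.sqrt 2 ≤ 3 / 2 := by
    by_contra h
    push Not at h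
    nlinarith
  by_contra hcon
  push Not at hcon
  set t := Real.sqrt 2 * D - z with ht
  -- the integer `2 D ^ 2 - z ^ 2` is not zero
  have hne : (2 * (D : ℤ) ^ 2 - z ^ 2) ≠ 0 := by
    intro h
    have h1 : (Real.sqrt 2 * D) ^ 2 = (z : ℝ) ^ 2 := by
      have h2 : (2 : ℝ) * (D : ℝ) ^ 2 - (z : ℝ) ^ 2 = 0 := by exact_mod_cast h
      rw [mul_pow, sq (Real.sqrt 2), hs]
      linarith
    rcases sq_eq_sq_iff_eq_or_eq_neg.1 h1 with h3 | h3
    · exact (irrational_sqrt_two.mul_natCast (by omega : D ≠ 0)).ne_int z h3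
    · exact (irrational_sqrt_two.mul_natCast (by omega : D ≠ 0)).ne_int (-z) (by push_cast; exact h3)
  have h1 : (1 : ℝ) ≤ |2 * (D : ℝ) ^ 2 - (z : ℝ) ^ 2| := by
    have := Int.one_le_abs hne
    exact_mod_cast this
  have h2 : 2 * (D : ℝ) ^ 2 - (z : ℝ) ^ 2 = t * (2 * (Real.sqrt 2 * D) - t) := by
    have h3 : 2 * (D : ℝ) ^ 2 = (Real.sqrt 2 * D) * (Real.sqrt 2 * D) := by
      calc 2 * (D : ℝ) ^ 2 = (Real.sqrt 2 * Real.sqrt 2) * (D : ℝ) ^ 2 := by rw [hs]
        _ = _ := by ring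
    rw [h3, ht]
    ring
  rw [h2, abs_mul] at h1
  have h4 : 1 / (4 * (D : ℝ)) ≤ 1 / 4 := by
    apply one_div_le_one_div_of_le (by norm_num)
    linarith
  have h5 : |2 * (Real.sqrt 2 * D) - t| ≤ 4 * D := by
    have h6 := abs_lt.1 hcon
    have h7 : 0 ≤ Real.sqrt 2 * D := by positivity
    have h8 : Real.sqrt 2 * D ≤ 3 / 2 * D := mul_le_mul_of_nonneg_right hs2 (by linarith)
    rw [abs_le]
    constructor <;> linarith [h6.1, h6.2]
  have h9 : |t| * |2 * (Real.sqrt 2 * D) - t| ≤ |t| * (4 * D) :=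
    mul_le_mul_of_nonneg_left h5 (abs_nonneg t)
  have h10 : |t| * (4 * D) < 1 / (4 * (D : ℝ)) * (4 * D) :=
    mul_lt_mul_of_pos_right hcon (by linarith)
  have h11 : 1 / (4 * (D : ℝ)) * (4 * D) = 1 := by
    field_simp
  linarith

end Pool.Agent.Helper84K9.TT
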