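import Pool.Agent.Helper84K9.TT.Stm

/-! Leaf NH: the number of the weights without a hit in an interval. -/

set_option autoImplicit false

namespace Pool.Agent.Helper84K9.TT

open Finset
open Helper84K9.GP (rough rough_card sum_fact_le card_inter_le)

namespace NhL

lemma int1 {ι κ : Type} [Fintype ι] [DecidableEq ι] [Fintype κ]
    (E : ℕ → (ι → κ) → Prop) (c : ℕ → ι) (𝒢 : Finset ℕ)
    (hindep : ∀ a ∈ 𝒢, ∀ a' ∈ 𝒢, a ≠ a' → ∀ (ω : ι → κ) (t : κ),
      E a' (Function.update ω (c a) t) ↔ E a' ω) (r : ℕ)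
    (hr : ∀ a ∈ 𝒢, ∀ ω : ι → κ, {t : κ | E a (Function.update ω (c a) t)}.ncard ≤ r) :
    {ω : ι → κ | ∀ a ∈ 𝒢, E a ω}.ncard * (Fintype.card κ) ^ 𝒢.card ≤
      r ^ 𝒢.card * Fintype.card (ι → κ) := by
  classical
  have h := card_inter_le E c 𝒢 hindep r (by
    intro a ha ω
    have h1 := hr a ha ω
    rw [← Set.ncard_coe_finset, Finset.coe_filter]
    simpa using h1)
  rw [← Set.ncard_coe_finset, Finset.coe_filter] at h
  simpa using h

lemma f_update {N R : ℕ} (ω : Fin N → Fin R) (c : Fin N) (t : Fin R) (n : ℕ) :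
    f (Function.update ω c t) n =
      ((∑ p ∈ univ.erase c, (Real.sqrt 2 / 2 * (n.factorization p.val : ℝ) ^ 2 +
        (ω p).val * (n.factorization p.val : ℝ) / R)) +
        Real.sqrt 2 / 2 * (n.factorization c.val : ℝ) ^ 2) +
        (t.val : ℝ) * (n.factorization c.val : ℕ) / R := by
  unfold f
  rw [← Finset.sum_erase_add _ _ (mem_univ c), Function.update_self, add_assoc]
  congr 1
  apply Finset.sum_congr rfl
  intro p hp
  rw [Function.update_of_ne (Finset.ne_of_mem_erase hp)]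

lemma f_update_zero {N R : ℕ} (ω : Fin N → Fin R) (c : Fin N) (t : Fin R) (n : ℕ)
    (h : n.factorization c.val = 0) : f (Function.update ω c t) n = f ω n := by
  unfold f
  apply Finset.sum_congr rfl
  intro p _
  by_cases hp : p = c
  · subst hp
    rw [h]
    simp
  · rw [Function.update_of_ne hp]

lemma fact_le {l n : ℕ} (hn : n ≠ 0) (hN : n < 2 ^ l) (p : Fin (2 ^ l)) :
    n.factorization p.val ≤ l := by
  have h1 := sum_fact_le l n hn hN
  exact (Finset.single_le_sum (f := fun p : Fin (2 ^ l) => n.factorization p.val)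
    (fun _ _ => Nat.zero_le _) (mem_univ p)).trans h1

end NhL

open NhL

/-- [NH] -/
theorem nh : S_WN → S_NH := by
  intro hWN l R G x hR hl hlR hG20 hx1 hx2
  classical
  have hxpos : 0 < x := lt_of_lt_of_le (Nat.pow_pos (by omega)) hx1
  have hGx : G ≤ x := by
    refine le_trans ?_ hx1
    calc G ≤ (2 * G) ^ 1 := by rw [pow_one]; omega
      _ ≤ (2 * G) ^ 8 := Nat.pow_le_pow_right (by omega) (by norm_num)
  have hlR' : l < R := by
    have h1 : l ^ 1 ≤ l ^ 6 := Nat.pow_le_pow_right hl (by norm_num)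
    rw [pow_one] at h1
    omega
  set M : ℕ := Nat.log 2 x + 2 with hM
  set k := (rough G x).card with hk
  have hmem : ∀ n ∈ rough G x, x ≤ n ∧ n < x + G ∧ ∃ p : ℕ, p < 2 ^ l ∧ p.Prime ∧ G < p ∧
      p ∣ n := by
    intro n hn
    unfold rough at hn
    obtain ⟨hn1, p, hp, hpG, hpn⟩ := mem_filter.1 hn
    obtain ⟨hn2, hn3⟩ := mem_Ico.1 hn1
    have hpn' := Nat.le_of_dvd (by omega) hpn
    exact ⟨hn2, hn3, p, by omega, hp, hpG, hpn⟩
  obtain ⟨d, hd⟩ : ∃ d : ℕ → ℕ, ∀ n ∈ rough G x, d n < 2 ^ l ∧ (d n).Prime ∧ G < d n ∧ d n ∣ n := by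
    refine ⟨fun n => if h : n ∈ rough G x then (hmem n h).2.2.choose else 0, fun n hn => ?_⟩
    simp only [dif_pos hn]
    exact (hmem n hn).2.2.choose_spec
  obtain ⟨c, hc⟩ : ∃ c : ℕ → Fin (2 ^ l), ∀ n ∈ rough G x, (c n).val = d n :=
    ⟨fun n => if h : d n < 2 ^ l then ⟨d n, h⟩ else ⟨0, by positivity⟩, fun n hn => by
      simp only [dif_pos (hd n hn).1]⟩
  have hpriv : ∀ a ∈ rough G x, ∀ a' ∈ rough G x, a ≠ a' → a'.factorization (d a) = 0 := by
    intro a ha a' ha' hne
    apply Nat.factorization_eq_zero_of_not_dvd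
    intro hdv
    obtain ⟨-, -, hcG, hca⟩ := hd a ha
    obtain ⟨ha1, ha2, -⟩ := hmem a ha
    obtain ⟨ha1', ha2', -⟩ := hmem a' ha'
    rcases Nat.lt_or_ge a a' with hlt | hge
    · have h4 := Nat.dvd_sub hdv hca
      have h5 := Nat.le_of_dvd (by omega) h4
      omega
    · have h4 := Nat.dvd_sub hca hdv
      have h5 := Nat.le_of_dvd (by omega) h4
      omega
  have hv : ∀ a ∈ rough G x, 1 ≤ a.factorization (d a) := by
    intro a ha
    obtain ⟨-, hcp, -, hca⟩ := hd a ha
    obtain ⟨ha1, -, -⟩ := hmem a ha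
    exact Nat.succ_le_iff.2 (hcp.factorization_pos_of_dvd (by omega) hca)
  have hM1 : (1 : ℝ) ≤ ((M : ℕ) : ℝ) := by
    have : 1 ≤ M := by omega
    exact_mod_cast this
  have hR0 : (0 : ℝ) < R := by exact_mod_cast hR.pos
  set y : ℝ := 1 / (400 * (M : ℝ) ^ 4) with hy
  have hM4 : (1 : ℝ) ≤ (M : ℝ) ^ 4 := one_le_pow₀ hM1
  have hy0 : 0 ≤ y := by positivity
  have hy1 : y ≤ 1 := by
    rw [hy, div_le_one (by positivity)]
    linarith
  set h : ℕ := ⌈(R : ℝ) * y⌉₊ with hh
  have hhR : h ≤ R := by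
    rw [hh]
    apply Nat.ceil_le.2
    calc (R : ℝ) * y ≤ R * 1 := mul_le_mul_of_nonneg_left hy1 hR0.le
      _ = R := mul_one _
  have hmain := int1 (fun (n : ℕ) (ω : Fin (2 ^ l) → Fin R) =>
    ¬ Good l (Nat.log 2 n + 1) (f ω n)) c (rough G x) (by
      intro a ha a' ha' hne ω t
      rw [f_update_zero ω (c a) t a' (by rw [hc a ha]; exact hpriv a ha a' ha' hne)]) (R - h) (by
      intro a ha ω
      obtain ⟨ha1, ha2, -⟩ := hmem a ha
      have hvl : a.factorization (c a).val ≤ l := fact_le (by omega) (by omega) (c a)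
      have hv1 : 1 ≤ a.factorization (c a).val := by rw [hc a ha]; exact hv a ha
      have hm1 : Nat.log 2 a + 1 ≤ l := by
        have : Nat.log 2 a < l := Nat.log_lt_of_lt_pow (by omega) (by omega)
        omega
      have hm2 : Nat.log 2 a + 1 ≤ M := by
        have h6 : a < 2 ^ (Nat.log 2 x + 2) := by
          have h7 : x < 2 ^ (Nat.log 2 x + 1) := Nat.lt_pow_succ_log_self (by norm_num) x
          have h8 : 2 ^ (Nat.log 2 x + 2) = 2 * 2 ^ (Nat.log 2 x + 1) := by ring
          omega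
        have : Nat.log 2 a < Nat.log 2 x + 2 := Nat.log_lt_of_lt_pow (by omega) h6
        omega
      have hgood := hWN R l (Nat.log 2 a + 1) (a.factorization (c a).val)
        ((∑ p ∈ univ.erase (c a), (Real.sqrt 2 / 2 * (a.factorization p.val : ℝ) ^ 2 +
        (ω p).val * (a.factorization p.val : ℝ) / R)) +
        Real.sqrt 2 / 2 * (a.factorization (c a).val : ℝ) ^ 2) hR (by omega) hm1 hv1 (by omega) hlR
      set W : Set (Fin R) := {j : Fin R | Good l (Nat.log 2 a + 1)
        (((∑ p ∈ univ.erase (c a), (Real.sqrt 2 / 2 * (a.factorization p.val : ℝ) ^ 2 +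
        (ω p).val * (a.factorization p.val : ℝ) / R)) +
        Real.sqrt 2 / 2 * (a.factorization (c a).val : ℝ) ^ 2) +
          (j.val : ℝ) * (a.factorization (c a).val : ℕ) / R)} with hW
      have hset : {t : Fin R | ¬ Good l (Nat.log 2 a + 1) (f (Function.update ω (c a) t) a)} = Wᶜ := by
        ext t
        simp only [hW, Set.mem_compl_iff, Set.mem_ofPred_eq, f_update]
      have hle : h ≤ W.ncard := by
        rw [hh]
        apply Nat.ceil_le.2
        have e1 : ((Nat.log 2 a + 1 : ℕ) : ℝ) ^ 4 ≤ (M : ℝ) ^ 4 := by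
          apply pow_le_pow_left₀ (Nat.cast_nonneg _)
          exact_mod_cast hm2
        have e2 : (R : ℝ) ≤ 400 * (M : ℝ) ^ 4 * (W.ncard : ℝ) := by
          refine hgood.trans ?_
          apply mul_le_mul_of_nonneg_right _ (Nat.cast_nonneg _)
          linarith
        rw [hy, mul_one_div, div_le_iff₀ (by positivity)]
        linarith
      change {t : Fin R | ¬ Good l (Nat.log 2 a + 1) (f (Function.update ω (c a) t) a)}.ncard ≤ R - h
      rw [hset, Set.ncard_compl _ (Set.toFinite _), Nat.card_eq_fintype_card, Fintype.card_fin]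
      exact Nat.sub_le_sub_left hle _)
  rw [Fintype.card_fin] at hmain
  have hcount := rough_card G x hG20 hx1
  have hsub : {ω : Fin (2 ^ l) → Fin R | ∀ n : ℕ, x ≤ n → n < x + G →
      ¬ Good l (Nat.log 2 n + 1) (f ω n)}.ncard ≤
      {ω : Fin (2 ^ l) → Fin R | ∀ a ∈ rough G x, ¬ Good l (Nat.log 2 a + 1) (f ω a)}.ncard := by
    apply Set.ncard_le_ncard _ (Set.toFinite _)
    intro p hp n hn
    obtain ⟨h7, h8, -⟩ := hmem n hn
    exact hp n h7 h8
  set Z := {ω : Fin (2 ^ l) → Fin R | ∀ n : ℕ, x ≤ n → n < x + G →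
      ¬ Good l (Nat.log 2 n + 1) (f ω n)}.ncard with hZ
  set N : ℕ := Fintype.card (Fin (2 ^ l) → Fin R) with hN
  have hmain' : Z * R ^ k ≤ (R - h) ^ k * N := (Nat.mul_le_mul_right _ hsub).trans hmain
  have hreal : (Z : ℝ) ≤ (1 - y) ^ k * N := by
    have h11 : (Z : ℝ) * (R : ℝ) ^ k ≤ ((R : ℝ) - h) ^ k * N := by
      have h12 : ((R - h : ℕ) : ℝ) = (R : ℝ) - h := Nat.cast_sub hhR
      rw [← h12]
      exact_mod_cast hmain'
    have h13 : ((R : ℝ) - h) ^ k ≤ (1 - y) ^ k * (R : ℝ) ^ k := by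
      rw [← mul_pow]
      apply pow_le_pow_left₀
      · have : (h : ℝ) ≤ R := by exact_mod_cast hhR
        linarith
      · have : (R : ℝ) * y ≤ h := Nat.le_ceil _
        linarith
    have h14 : (0 : ℝ) < (R : ℝ) ^ k := pow_pos hR0 k
    rw [← mul_le_mul_iff_left₀ h14]
    calc (Z : ℝ) * (R : ℝ) ^ k ≤ ((R : ℝ) - h) ^ k * N := h11
      _ ≤ ((1 - y) ^ k * (R : ℝ) ^ k) * N := mul_le_mul_of_nonneg_right h13 (Nat.cast_nonneg _)
      _ = (1 - y) ^ k * N * (R : ℝ) ^ k := by ring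
  refine hreal.trans (mul_le_mul_of_nonneg_right ?_ (Nat.cast_nonneg _))
  calc (1 - y) ^ k ≤ (Real.exp (-y)) ^ k := by
        apply pow_le_pow_left₀ (by linarith)
        have := Real.add_one_le_exp (-y)
        linarith
    _ = Real.exp (-((k : ℝ) * y)) := by
        rw [← Real.exp_nat_mul]
        congr 1
        ring
    _ ≤ Real.exp (-((G : ℝ) / (1600 * ((M : ℕ) : ℝ) ^ 4))) := by
        apply Real.exp_le_exp.2
        apply neg_le_neg
        have h15 : (G : ℝ) ≤ 4 * k := by exact_mod_cast hcount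
        have h16 : (G : ℝ) / (1600 * ((M : ℕ) : ℝ) ^ 4) = (G : ℝ) / 4 * y := by
          rw [hy]
          field_simp
          ring
        rw [h16]
        apply mul_le_mul_of_nonneg_right _ hy0
        linarith

end Pool.Agent.Helper84K9.TT
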