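import Pool.Agent.Helper84K9.TT.Stm

/-! Leaf PAR: the parameter. -/

set_option autoImplicit false

namespace Pool.Agent.Helper84K9.TT

theorem par : S_PAR := by
  have h1 := isLittleO_pow_const_const_pow_of_one_lt (R := ℝ) 40 (show (1:ℝ) < 2 by norm_num)
  have h2 := h1.bound (show (0:ℝ) < 1 / (9600 ^ 8 * 4) by norm_num)
  obtain ⟨N, hN⟩ := Filter.eventually_atTop.mp h2
  refine ⟨2 ^ N, fun x hx => ?_⟩
  have hx0 : x ≠ 0 := by
    have : 0 < 2 ^ N := by positivity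
    omega
  have hL : N ≤ Nat.log 2 x := Nat.le_log_of_pow_le (by norm_num) hx
  have h3 := hN (Nat.log 2 x + 2) (by omega)
  have h4 : 2 ^ Nat.log 2 x ≤ x := Nat.pow_log_le_self 2 hx0
  refine le_trans ?_ h4
  generalize Nat.log 2 x = L at *
  rw [Real.norm_of_nonneg (by positivity), Real.norm_of_nonneg (by positivity)] at h3
  have h5 : (9600 : ℝ) ^ 8 * ((L + 2 : ℕ) : ℝ) ^ 40 ≤ 2 ^ L := by
    rw [pow_add 2 L 2] at h3
    have h6 := mul_le_mul_of_nonneg_left h3 (show (0:ℝ) ≤ 9600 ^ 8 by positivity)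
    refine h6.trans (le_of_eq ?_)
    field_simp
    norm_num
  have h7 : (2 * (4800 * (L + 2) ^ 5)) ^ 8 = 9600 ^ 8 * (L + 2) ^ 40 := by ring
  rw [h7]
  exact_mod_cast h5

end Pool.Agent.Helper84K9.TT
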