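import Pool.Agent.Helper84K9.TT.Stm

/-!
The number of `j` with `β + j v / R` close to an integer: the leaf PT.
-/

set_option autoImplicit false

namespace Pool.Agent.Helper84K9.TT

theorem pt : S_PT := by
  intro R v β ε hR hv1 hvR hε hε4
  have : Fact R.Prime := ⟨hR⟩
  have hR0 : (0 : ℝ) < R := by exact_mod_cast hR.pos
  set J : Set (Fin R) := {j | ∃ z : ℤ, |β + (j.val : ℝ) * v / R - z| < ε} with hJ
  set a : ℝ := -(β * R) - ε * R with ha
  set b : ℝ := -(β * R) + ε * R with hb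
  set S : Finset ℤ := Finset.Ioo ⌊a⌋ ⌈b⌉ with hSdef
  have hS : ∀ n : ℤ, n ∈ S ↔ |β * R + n| < ε * R := by
    intro n
    rw [hSdef, Finset.mem_Ioo, Int.floor_lt, Int.lt_ceil, abs_lt]
    constructor
    · rintro ⟨h1, h2⟩
      constructor <;> linarith
    · rintro ⟨h1, h2⟩
      constructor <;> linarith
  have hvne : (v : ZMod R) ≠ 0 := by
    rw [Ne, ZMod.natCast_eq_zero_iff]
    intro h
    exact absurd (Nat.le_of_dvd (by omega) h) (by omega)
  let φ : ℤ → Fin R := fun n => ⟨((n : ZMod R) * (v : ZMod R)⁻¹).val, ZMod.val_lt _⟩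
  have hφ : ∀ (n : ℤ) (j : Fin R), φ n = j ↔ ∃ z : ℤ, n = (j.val : ℤ) * v - z * R := by
    intro n j
    have h1 : φ n = j ↔ ((n : ZMod R) * (v : ZMod R)⁻¹) = (j.val : ZMod R) := by
      constructor
      · intro h
        have h2 : ((n : ZMod R) * (v : ZMod R)⁻¹).val = j.val := congrArg Fin.val h
        rw [← h2, ZMod.natCast_zmod_val]
      · intro h
        apply Fin.ext
        show ((n : ZMod R) * (v : ZMod R)⁻¹).val = j.val
        rw [h, ZMod.val_natCast_of_lt j.isLt]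
    have h3 : ((j.val : ℕ) : ZMod R) * (v : ZMod R) =
        (((j.val : ℤ) * (v : ℤ) : ℤ) : ZMod R) := by
      push_cast
      rfl
    rw [h1, mul_inv_eq_iff_eq_mul₀ hvne, h3, ZMod.intCast_eq_intCast_iff_dvd_sub]
    constructor
    · rintro ⟨z, hz⟩
      exact ⟨z, by linarith⟩
    · rintro ⟨z, hz⟩
      exact ⟨z, by rw [hz]; ring⟩
  have key : ∀ (j : Fin R) (z : ℤ), β * R + (((j.val : ℤ) * v - z * R : ℤ) : ℝ) =
      (β + (j.val : ℝ) * v / R - z) * R := by
    intro j z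
    push_cast
    field_simp
    ring
  have hJS : J = φ '' (S : Set ℤ) := by
    ext j
    constructor
    · rintro ⟨z, hz⟩
      refine ⟨(j.val : ℤ) * v - z * R, ?_, (hφ _ j).mpr ⟨z, rfl⟩⟩
      rw [Finset.mem_coe, hS, key, abs_mul, abs_of_pos hR0]
      exact mul_lt_mul_of_pos_right hz hR0
    · rintro ⟨n, hn, hj⟩
      obtain ⟨z, hz⟩ := (hφ n j).mp hj
      refine ⟨z, ?_⟩
      rw [Finset.mem_coe, hS, hz, key, abs_mul, abs_of_pos hR0] at hn
      exact lt_of_mul_lt_mul_right hn hR0.le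
  have hinj : Set.InjOn φ (S : Set ℤ) := by
    intro n hn n' hn' h
    rw [Finset.mem_coe, hS] at hn hn'
    obtain ⟨z, hz⟩ := (hφ n (φ n')).mp h
    obtain ⟨z', hz'⟩ := (hφ n' (φ n')).mp rfl
    have h1 : n - n' = (z' - z) * R := by
      linear_combination hz - hz'
    have h1' : (n : ℝ) - n' = ((z' : ℝ) - z) * R := by exact_mod_cast h1
    have h2 : |(n : ℝ) - n'| < R := by
      rw [abs_lt] at hn hn' ⊢
      have : ε * R ≤ 1 / 4 * R := mul_le_mul_of_nonneg_right hε4 hR0.le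
      constructor <;> linarith [hn.1, hn.2, hn'.1, hn'.2]
    rw [h1', abs_mul, abs_of_pos hR0] at h2
    have h3 : |(z' : ℝ) - z| < 1 := by
      by_contra hc
      push Not at hc
      have := mul_le_mul_of_nonneg_right hc hR0.le
      rw [one_mul] at this
      linarith
    have h4 : |z' - z| < 1 := by exact_mod_cast h3
    rw [Int.abs_lt_one_iff] at h4
    rw [h4, zero_mul, sub_eq_zero] at h1
    exact h1
  have hab : a < b := by
    have : 0 < ε * R := mul_pos hε hR0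
    rw [ha, hb]
    linarith
  have hc : (J.ncard : ℝ) = (⌈b⌉ : ℝ) - ⌊a⌋ - 1 := by
    rw [hJS, hinj.ncard_image, Set.ncard_coe_finset, hSdef, Int.card_Ioo]
    have h1 : ⌊a⌋ < ⌈b⌉ := by
      have h2 : (⌊a⌋ : ℝ) < ⌈b⌉ := lt_of_le_of_lt (Int.floor_le a) (lt_of_lt_of_le hab (Int.le_ceil b))
      exact_mod_cast h2
    have h3 : (((⌈b⌉ - ⌊a⌋ - 1).toNat : ℤ) : ℝ) = ((⌈b⌉ - ⌊a⌋ - 1 : ℤ) : ℝ) := by
      rw [Int.toNat_of_nonneg (by omega)]
    have h4 : (((⌈b⌉ - ⌊a⌋ - 1).toNat : ℕ) : ℝ) = (((⌈b⌉ - ⌊a⌋ - 1).toNat : ℤ) : ℝ) := by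
      norm_cast
    rw [h4, h3]
    push_cast
    ring
  rw [hc]
  have e1 := Int.floor_le a
  have e2 := Int.lt_floor_add_one a
  have e3 := Int.le_ceil b
  have e4 := Int.ceil_lt_add_one b
  constructor
  · rw [ha] at e1
    rw [hb] at e3
    linarith
  · rw [ha] at e2
    rw [hb] at e4
    linarith

end Pool.Agent.Helper84K9.TT
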