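import Pool.Agent.Helper84K9.SG.Stm

/-!
# Three term geometric progressions and polylogarithmic gaps: the statements of the leaves

`f n = ∑ p, (√2 / 2 v_p(n) ^ 2 + (w p / R) v_p(n))`. If `c 0 * c 2 = c 1 ^ 2`, then
`f (c 0) - 2 f (c 1) + f (c 2) = √2 D`, `D = ∑ p, d_p ^ 2 ≤ (log₂ (c 1)) ^ 2`. The set consists of the `n` (with
`m` binary digits) for which `f n` is closer than `1 / (400 m ^ 4)` to an integer, and `f n - √2 D` is not closer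
than `3 / (400 D ^ 2)` to an integer for any `D ≥ 1`. As `√2 D` has distance `≥ 1 / (4 D)` from the integers, the
second condition costs little.
-/

set_option autoImplicit false

namespace Pool.Agent.Helper84K9.TT

open Finset
open Helper84K9.GP (rough)

def Good (l m : ℕ) (y : ℝ) : Prop :=
  (∃ z : ℤ, |y - z| < 1 / (400 * (m : ℝ) ^ 4)) ∧
  ∀ D : ℕ, 1 ≤ D → D ≤ l ^ 2 → ∀ z : ℤ, 3 / (400 * (D : ℝ) ^ 2) ≤ |y - Real.sqrt 2 * D - z|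

noncomputable def f {N R : ℕ} (ω : Fin N → Fin R) (n : ℕ) : ℝ :=
  ∑ p : Fin N, (Real.sqrt 2 / 2 * (n.factorization p.val : ℝ) ^ 2 +
    (ω p).val * (n.factorization p.val : ℝ) / R)

/-- COR. `d_p = v_p(c 1) - v_p(c 0) = v_p(c 2) - v_p(c 1)`, so `|d_p| ≤ v_p(c 1)` and
`1 ≤ D = ∑ d_p ^ 2 ≤ (∑ v_p(c 1)) ^ 2 ≤ (log₂ (c 1)) ^ 2 ≤ l ^ 2` (as in `GP.sum_fact_le`, `GP.F_le`). With the integers
`z 1, z 2` for `c 1, c 2` (`c 1 ≤ c 2`, `m₁ = log₂ (c 1) + 1`):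
`|f (c 0) - √2 D - (2 z 1 - z 2)| < 3 / (400 m₁ ^ 4) ≤ 3 / (400 D ^ 2)`. -/
def S_COR : Prop := ∀ (l R : ℕ) (ω : Fin (2 ^ l) → Fin R) (c : ℕ → ℕ),
  (∀ j < 3, 0 < c j ∧ c j < 2 ^ l ∧ Good l (Nat.log 2 (c j) + 1) (f ω (c j))) →
  c 0 * c 2 = c 1 ^ 2 → ¬ c 0 < c 1

/-- IRR. `|√2 D - z| (√2 D + |z|) ≥ |2 D ^ 2 - z ^ 2| ≥ 1`, and `√2 D + |z| ≤ 4 D` if `|√2 D - z| ≤ 1 / 4`. -/
def S_IRR : Prop := ∀ (D : ℕ) (z : ℤ), 1 ≤ D → 1 / (4 * (D : ℝ)) ≤ |Real.sqrt 2 * D - z|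

/-- PT. `j ↦ j v mod R` is a permutation, so the numbers are, modulo `1`, the `β + j / R`, `j < R`. -/
def S_PT : Prop := ∀ (R v : ℕ) (β ε : ℝ), R.Prime → 1 ≤ v → v < R → 0 < ε → ε ≤ 1 / 4 →
  2 * ε * R - 1 ≤ ({j : Fin R | ∃ z : ℤ, |β + (j.val : ℝ) * v / R - z| < ε}.ncard : ℝ) ∧
  ({j : Fin R | ∃ z : ℤ, |β + (j.val : ℝ) * v / R - z| < ε}.ncard : ℝ) ≤ 2 * ε * R + 1

/-- WN. With `δ = 1 / (400 m ^ 4)`: at least `2 δ R - 1` numbers `j` satisfy the first condition. If one of them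
violates the second condition for `D`, then `1 / (4 D) ≤ δ + 3 / (400 D ^ 2)`, so `D ≥ 97 m ^ 4`; for every such `D`
at most `6 R / (400 D ^ 2) + 1` numbers `j`, in all at most `12 R / (400 * 97 m ^ 4) + l ^ 2` (PT for `β - √2 D`;
`∑_(D ≥ n) 1 / D ^ 2 ≤ 2 / n`). -/
def S_WN : Prop := ∀ (R l m v : ℕ) (β : ℝ), R.Prime → 1 ≤ m → m ≤ l → 1 ≤ v → v < R →
  10000 * l ^ 6 ≤ R →
  (R : ℝ) ≤ 400 * (m : ℝ) ^ 4 * ({j : Fin R | Good l m (β + (j.val : ℝ) * v / R)}.ncard : ℝ)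

/-- NH. The proof of `SG.noh` (SG/Noh.lean) for one scale, with `GP.card_inter_le` (GP/Count.lean) in the place of
INT2: for `a ∈ rough G x` with the private prime `c a`, `f (update ω c t) a = β + t v / R`,
`v = a.factorization c`, `1 ≤ v ≤ l < R`, so at least `h = ⌈R / (400 M ^ 4)⌉` values of `t` are good (WN with
`m = log₂ a + 1 ≤ M = log₂ x + 2`, `m ≤ l`). `(1 - h / R) ^ (G / 4) ≤ exp (- G / (1600 M ^ 4))`. -/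
def S_NH : Prop := ∀ (l R G x : ℕ), R.Prime → 1 ≤ l → 10000 * l ^ 6 ≤ R → 20 ≤ G → (2 * G) ^ 8 ≤ x →
  x + G ≤ 2 ^ l →
  ({ω : Fin (2 ^ l) → Fin R | ∀ n : ℕ, x ≤ n → n < x + G →
      ¬ Good l (Nat.log 2 n + 1) (f ω n)}.ncard : ℝ) ≤
    Real.exp (-((G : ℝ) / (1600 * ((Nat.log 2 x + 2 : ℕ) : ℝ) ^ 4))) * Fintype.card (Fin (2 ^ l) → Fin R)

/-- UF. `B = {n | ∀ᶠ l in hyperfilter ℕ, n ∈ A l}` (`Ultrafilter.finite_biUnion_mem_iff`). -/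
def S_UF : Prop := ∀ (A : ℕ → Set ℕ) (G : ℕ → ℕ) (x0 : ℕ), (∀ l, ∀ a ∈ A l, 0 < a) →
  (∀ l, ∀ c : ℕ → ℕ, (∀ j < 3, c j ∈ A l) → c 0 * c 2 = c 1 ^ 2 → ¬ c 0 < c 1) →
  (∀ l x, x0 ≤ x → x + G x ≤ 2 ^ l → ∃ a ∈ A l, x ≤ a ∧ a < x + G x) →
  ∃ B : Set ℕ, (∀ a ∈ B, 0 < a) ∧
    (∀ c : ℕ → ℕ, (∀ j < 3, c j ∈ B) → c 0 * c 2 = c 1 ^ 2 → ¬ c 0 < c 1) ∧
    ∀ x, x0 ≤ x → ∃ a ∈ B, x ≤ a ∧ a < x + G x

/-- PAR. -/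
def S_PAR : Prop := ∃ x0 : ℕ, ∀ x, x0 ≤ x → (2 * (4800 * (Nat.log 2 x + 2) ^ 5)) ^ 8 ≤ x

/-- FIN. With `SH.fin4` (SH/Fin.lean): `4800 (log₂ n + 2) ^ 5 ≤ C0 (log n) ^ 5`. -/
def S_FIN : Prop := ∀ (A : Set ℕ) (N0 : ℕ),
  (∀ n : ℕ, N0 ≤ n → ∃ a ∈ A, n ≤ a ∧ a < n + 4800 * (Nat.log 2 n + 2) ^ 5) →
  ∃ C : ℝ, ∀ x : ℝ, 2 ≤ x → ∃ a ∈ A, x ≤ (a : ℝ) ∧ (a : ℝ) ≤ x + C * (Real.log x) ^ 5

end Pool.Agent.Helper84K9.TT
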