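import Pool.Agent.Helper84K9.TT.Stm
import Mathlib.Order.Filter.Ultrafilter.Basic

/-!
# UF: the limit set along an ultrafilter
-/

set_option autoImplicit false

namespace Pool.Agent.Helper84K9.TT

open Filter

theorem uf : S_UF := by
  intro A G x0 hpos hfree hdense
  refine ⟨{n | ∀ᶠ l in (hyperfilter ℕ : Filter ℕ), n ∈ A l}, ?_, ?_, ?_⟩
  · intro a ha
    obtain ⟨l, hl⟩ := (show ∀ᶠ l in (hyperfilter ℕ : Filter ℕ), a ∈ A l from ha).exists
    exact hpos l a hl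
  · intro c hc hcc
    have h0 : ∀ᶠ l in (hyperfilter ℕ : Filter ℕ), c 0 ∈ A l := hc 0 (by norm_num)
    have h1 : ∀ᶠ l in (hyperfilter ℕ : Filter ℕ), c 1 ∈ A l := hc 1 (by norm_num)
    have h2 : ∀ᶠ l in (hyperfilter ℕ : Filter ℕ), c 2 ∈ A l := hc 2 (by norm_num)
    obtain ⟨l, hl0, hl1, hl2⟩ := (h0.and (h1.and h2)).exists
    refine hfree l c ?_ hcc
    intro j hj
    interval_cases j
    · exact hl0
    · exact hl1
    · exact hl2
  · intro x hx
    have h1 : ∀ᶠ l in (hyperfilter ℕ : Filter ℕ), x + G x ≤ 2 ^ l := by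
      have h2 : ∀ᶠ l in (atTop : Filter ℕ), x + G x ≤ 2 ^ l := by
        filter_upwards [eventually_ge_atTop (x + G x)] with l hl
        exact hl.trans Nat.lt_two_pow_self.le
      exact Nat.hyperfilter_le_atTop h2
    have h2 : (⋃ a ∈ Set.Ico x (x + G x), {l : ℕ | a ∈ A l}) ∈ hyperfilter ℕ := by
      have h3 : ∀ᶠ l in (hyperfilter ℕ : Filter ℕ), ∃ a ∈ A l, x ≤ a ∧ a < x + G x :=
        h1.mono fun l hl => hdense l x hx hl
      refine Filter.mem_of_superset (f := (hyperfilter ℕ : Filter ℕ)) h3 ?_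
      rintro l ⟨a, ha, ha1, ha2⟩
      exact Set.mem_biUnion (show a ∈ Set.Ico x (x + G x) from ⟨ha1, ha2⟩) ha
    rw [Ultrafilter.finite_biUnion_mem_iff (Set.finite_Ico x (x + G x))] at h2
    obtain ⟨a, ⟨ha1, ha2⟩, ha⟩ := h2
    exact ⟨a, ha, ha1, ha2⟩

end Pool.Agent.Helper84K9.TT
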