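import Pool.Agent.Helper84K9.TT.Stm

/-!
# WN (helper52): enough of the numbers `j` are good
-/

set_option autoImplicit false

namespace Pool.Agent.Helper84K9.TT

open Finset

namespace WnL

/-- the number `D` of a bad point is large -/
theorem large (hI : S_IRR) {m D : ℕ} {y : ℝ} {z z' : ℤ} (hm : 1 ≤ m) (hD : 1 ≤ D)
    (h1 : |y - z| < 1 / (400 * (m : ℝ) ^ 4))
    (h2 : |y - Real.sqrt 2 * D - z'| < 3 / (400 * (D : ℝ) ^ 2)) : 97 * m ^ 4 < D := by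
  have h3 := hI D (z - z') hD
  have h4 : |Real.sqrt 2 * D - ((z - z' : ℤ) : ℝ)| ≤ |y - z| + |y - Real.sqrt 2 * D - z'| := by
    have e : Real.sqrt 2 * D - ((z - z' : ℤ) : ℝ) = (y - z) - (y - Real.sqrt 2 * D - z') := by
      push_cast; ring
    rw [e]
    exact abs_sub _ _
  have h5 : 1 / (4 * (D : ℝ)) < 1 / (400 * (m : ℝ) ^ 4) + 3 / (400 * (D : ℝ) ^ 2) := by linarith
  have hm' : (0 : ℝ) < (m : ℝ) ^ 4 := by positivity
  have hD' : (1 : ℝ) ≤ D := by exact_mod_cast hD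
  have hD0 : (0 : ℝ) < D := by linarith
  have h6 : 100 * (D : ℝ) * (m : ℝ) ^ 4 < (D : ℝ) ^ 2 + 3 * (m : ℝ) ^ 4 := by
    have h7 := mul_lt_mul_of_pos_right h5 (show (0 : ℝ) < 400 * (D : ℝ) ^ 2 * (m : ℝ) ^ 4 by positivity)
    have e1 : 1 / (4 * (D : ℝ)) * (400 * (D : ℝ) ^ 2 * (m : ℝ) ^ 4) = 100 * (D : ℝ) * (m : ℝ) ^ 4 := by
      field_simp; ring
    have e2 : (1 / (400 * (m : ℝ) ^ 4) + 3 / (400 * (D : ℝ) ^ 2)) * (400 * (D : ℝ) ^ 2 * (m : ℝ) ^ 4) =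
        (D : ℝ) ^ 2 + 3 * (m : ℝ) ^ 4 := by
      field_simp
    rw [e1, e2] at h7
    exact h7
  have h8 : 97 * (m : ℝ) ^ 4 * D < D * D := by nlinarith
  have h9 : 97 * (m : ℝ) ^ 4 < D := lt_of_mul_lt_mul_right h8 hD0.le
  exact_mod_cast h9

theorem ncard_filter {R : ℕ} (P : Fin R → Prop) [DecidablePred P] :
    {j : Fin R | P j}.ncard = (univ.filter P).card := by
  rw [← Set.ncard_coe_finset]
  congr 1
  ext j
  simp

theorem sum_le (n L : ℕ) (hn : 1 ≤ n) :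
    ∑ D ∈ Ioc n L, (((D : ℝ)) ^ 2)⁻¹ ≤ (n : ℝ)⁻¹ := by
  rcases le_or_gt n L with h | h
  · have h1 := sum_Ioc_inv_sq_le_sub (α := ℝ) (k := n) (n := L) (by omega) h
    have h2 : (0 : ℝ) ≤ (L : ℝ)⁻¹ := by positivity
    linarith
  · rw [Ioc_eq_empty (by omega), sum_empty]
    positivity

end WnL

open WnL in
theorem wn : S_IRR → S_PT → S_WN := by
  classical
  intro hI hP R l m v β hR hm hml hv hvR hlR
  set y : Fin R → ℝ := fun j => β + (j.val : ℝ) * v / R with hy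
  have hmr : (1 : ℝ) ≤ m := by exact_mod_cast hm
  have hm4 : (1 : ℝ) ≤ (m : ℝ) ^ 4 := one_le_pow₀ hmr
  have hR0 : (0 : ℝ) < R := by exact_mod_cast hR.pos
  have hδ0 : (0 : ℝ) < 1 / (400 * (m : ℝ) ^ 4) := by positivity
  have hδ1 : 1 / (400 * (m : ℝ) ^ 4) ≤ (1 : ℝ) / 4 := by
    apply one_div_le_one_div_of_le (by norm_num)
    linarith
  obtain ⟨h1, -⟩ := hP R v β (1 / (400 * (m : ℝ) ^ 4)) hR hv hvR hδ0 hδ1
  have h2 : ∀ D ∈ Ioc (97 * m ^ 4) (l ^ 2),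
      (((univ : Finset (Fin R)).filter (fun j => ∃ z : ℤ, |y j - Real.sqrt 2 * D - z| <
        3 / (400 * (D : ℝ) ^ 2))).card : ℝ) ≤ 6 / 400 * R * ((D : ℝ) ^ 2)⁻¹ + 1 := by
    intro D hD
    rw [mem_Ioc] at hD
    have hD1 : 1 ≤ D := by omega
    have hDr : (1 : ℝ) ≤ D := by exact_mod_cast hD1
    have hD2 : (1 : ℝ) ≤ (D : ℝ) ^ 2 := one_le_pow₀ hDr
    have hε0 : (0 : ℝ) < 3 / (400 * (D : ℝ) ^ 2) := by positivity
    have hε1 : 3 / (400 * (D : ℝ) ^ 2) ≤ (1 : ℝ) / 4 := by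
      rw [div_le_div_iff₀ (by positivity) (by norm_num)]
      linarith
    obtain ⟨-, h3⟩ := hP R v (β - Real.sqrt 2 * D) (3 / (400 * (D : ℝ) ^ 2)) hR hv hvR hε0 hε1
    rw [ncard_filter] at h3
    have e : ∀ j : Fin R, β - Real.sqrt 2 * D + (j.val : ℝ) * v / R = y j - Real.sqrt 2 * D := by
      intro j; rw [hy]; ring
    simp only [e] at h3
    refine h3.trans (le_of_eq ?_)
    field_simp
    ring
  rw [ncard_filter] at h1
  rw [ncard_filter]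
  have hsub : (univ : Finset (Fin R)).filter (fun j => ∃ z : ℤ, |y j - z| < 1 / (400 * (m : ℝ) ^ 4)) ⊆
      (univ.filter fun j => Good l m (y j)) ∪ (Ioc (97 * m ^ 4) (l ^ 2)).biUnion (fun D =>
        univ.filter (fun j => ∃ z : ℤ, |y j - Real.sqrt 2 * D - z| < 3 / (400 * (D : ℝ) ^ 2))) := by
    intro j hj
    obtain ⟨z, hz⟩ := (mem_filter.1 hj).2
    by_cases hg : Good l m (y j)
    · exact mem_union_left _ (mem_filter.2 ⟨mem_univ _, hg⟩)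
    · refine mem_union_right _ ?_
      unfold Good at hg
      push Not at hg
      obtain ⟨D, hD1, hD2, z', hz'⟩ := hg ⟨z, hz⟩
      exact mem_biUnion.2 ⟨D, mem_Ioc.2 ⟨large hI hm hD1 hz hz', hD2⟩,
        mem_filter.2 ⟨mem_univ _, z', hz'⟩⟩
  have hcard := (card_le_card hsub).trans ((card_union_le _ _).trans (Nat.add_le_add_left card_biUnion_le _))
  have hcardR : (((univ : Finset (Fin R)).filter
      (fun j => ∃ z : ℤ, |y j - z| < 1 / (400 * (m : ℝ) ^ 4))).card : ℝ) ≤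
      ((univ.filter fun j => Good l m (y j)).card : ℝ) +
      ∑ D ∈ Ioc (97 * m ^ 4) (l ^ 2), (6 / 400 * R * ((D : ℝ) ^ 2)⁻¹ + 1) := by
    have h3 := (Nat.cast_le (α := ℝ)).2 hcard
    push_cast at h3
    refine h3.trans (by gcongr with D hD; exact h2 D hD)
  have hs : ∑ D ∈ Ioc (97 * m ^ 4) (l ^ 2), (6 / 400 * (R : ℝ) * ((D : ℝ) ^ 2)⁻¹ + 1) ≤
      6 / 400 * R * ((97 * (m : ℝ) ^ 4))⁻¹ + (l : ℝ) ^ 2 := by
    rw [sum_add_distrib, ← mul_sum]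
    apply add_le_add
    · apply mul_le_mul_of_nonneg_left _ (by positivity)
      have := sum_le (97 * m ^ 4) (l ^ 2) (by have := Nat.one_le_pow 4 m hm; omega)
      push_cast at this
      exact this
    · rw [sum_const, Nat.card_Ioc, nsmul_eq_mul, mul_one]
      have : l ^ 2 - 97 * m ^ 4 ≤ l ^ 2 := Nat.sub_le _ _
      exact_mod_cast this
  have hlm : (m : ℝ) ^ 4 * (1 + (l : ℝ) ^ 2) ≤ 2 * (l : ℝ) ^ 6 := by
    have hlr : (m : ℝ) ≤ l := by exact_mod_cast hml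
    have hl1 : (1 : ℝ) ≤ l := hmr.trans hlr
    have hl2 : (1 : ℝ) ≤ (l : ℝ) ^ 2 := one_le_pow₀ hl1
    have h4 : (m : ℝ) ^ 4 ≤ (l : ℝ) ^ 4 := pow_le_pow_left₀ (by positivity) hlr 4
    calc (m : ℝ) ^ 4 * (1 + (l : ℝ) ^ 2) ≤ (l : ℝ) ^ 4 * (2 * (l : ℝ) ^ 2) := by
          apply mul_le_mul h4 (by linarith) (by positivity) (by positivity)
      _ = 2 * (l : ℝ) ^ 6 := by ring
  have hRr : 10000 * (l : ℝ) ^ 6 ≤ R := by exact_mod_cast hlR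
  set g : ℝ := ((univ.filter fun j => Good l m (y j)).card : ℝ) with hg
  have hmain : 2 * (1 / (400 * (m : ℝ) ^ 4)) * R - 1 ≤ g + (6 / 400 * R * ((97 * (m : ℝ) ^ 4))⁻¹ + (l : ℝ) ^ 2) := by
    refine h1.trans (hcardR.trans ?_)
    gcongr
  have h5 := mul_le_mul_of_nonneg_right hmain (show (0 : ℝ) ≤ 400 * (m : ℝ) ^ 4 by positivity)
  have e1 : (2 * (1 / (400 * (m : ℝ) ^ 4)) * R - 1) * (400 * (m : ℝ) ^ 4) = 2 * R - 400 * (m : ℝ) ^ 4 := by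
    field_simp
  have e2 : (g + (6 / 400 * R * ((97 * (m : ℝ) ^ 4))⁻¹ + (l : ℝ) ^ 2)) * (400 * (m : ℝ) ^ 4) =
      400 * (m : ℝ) ^ 4 * g + 6 / 97 * R + 400 * ((m : ℝ) ^ 4 * (l : ℝ) ^ 2) := by
    field_simp
    ring
  rw [e1, e2] at h5
  have h6 : 400 * (m : ℝ) ^ 4 + 400 * ((m : ℝ) ^ 4 * (l : ℝ) ^ 2) ≤ 800 * (l : ℝ) ^ 6 := by nlinarith
  change (R : ℝ) ≤ 400 * (m : ℝ) ^ 4 * g
  nlinarith

end Pool.Agent.Helper84K9.TT
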